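import Pool.Agent.P.MP_1a0ecf_al.Sg.Top

namespace Pool.Agent.Results.MP_1a0ecf_al.Full

open Pool.Agent.P.MP_1a0ecf_al

/-- The Gordon-Martino conjecture for the Coxeter groups with Coxeter matrix `M` and all real
parameters `c`, of any sign. -/
def GM {n : ℕ} (M : CoxeterMatrix (Fin n)) : Prop :=
  ∀ (W : Type) [Group W] [Fintype W] (cs : CoxeterSystem M W)
    (ρ : Representation ℂ W (Fin n → ℂ)), S.IsGeom cs ρ (fun i => Pi.single i 1) →
  ∀ c : W → ℝ, (∀ t w, cs.IsReflection t → c (w * t * w⁻¹) = c t) →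
  ∀ (H : Type) [Ring H] [Algebra (AddMonoidAlgebra ℤ (S.Gam cs c)) H]
    (T C : Module.Basis W (AddMonoidAlgebra ℤ (S.Gam cs c)) H) (bar : H →+* H),
    S.IsHecke cs (S.wt cs c) T → S.IsBar T bar → S.IsKL T bar C →
  ∀ (d d' : ℕ) (π : Representation ℂ W (Fin d → ℂ)) (π' : Representation ℂ W (Fin d' → ℂ)),
    π.IsIrreducible → π'.IsIrreducible →
    (S.SameCM cs ρ c π π' ↔ ∃ z, S.Occurs T C z π ∧ S.Occurs T C z π')

/-- The Gordon-Martino conjecture for all finite Coxeter groups and all real parameters. -/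
theorem result : ∀ (n : ℕ) (M : CoxeterMatrix (Fin n)), GM M := by
  intro n M W _ _ cs ρ hρ c h1 H i1 i2 T C bar hT hb hC d d' π π' hπ hπ'
  rw [sameCM_iff]
  simp only [occurs_iff']
  exact @F.Sg.gm_real n M W _ _ cs ρ hρ c h1 H i1 i2 T C bar hT hb hC d d' π π' hπ hπ'

end Pool.Agent.Results.MP_1a0ecf_al.Full
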